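import Pool.Agent.Y811.PC.Stm

set_option autoImplicit false

/-! Finitely many parameters with a given neutral multiplier. -/

namespace Pool.Agent.Y510.PC

open Polynomial Pool.Agent.H712R2 Pool.Agent.Y811.PC

noncomputable section

/-- the iterates as polynomials in `z` with coefficients in `ℂ[c]` -/
def Q (d : ℕ) : ℕ → ℂ[X][X]
  | 0 => X
  | j + 1 => Q d j ^ d + C X

lemma Q_eval (d j : ℕ) (c z : ℂ) : eval z ((Q d j).map (evalRingHom c)) = (fc d c)^[j] z := by
  induction j with
  | zero => simp [Q]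
  | succ j ih =>
    rw [Function.iterate_succ_apply', ← ih]
    simp [Q, fc]

lemma Q_monic {d : ℕ} (hd : 2 ≤ d) (j : ℕ) : (Q d j).Monic ∧ (Q d j).natDegree = d ^ j := by
  induction j with
  | zero => exact ⟨monic_X, by simp [Q]⟩
  | succ j ih =>
    have h1 : (Q d j ^ d).natDegree = d ^ (j + 1) := by
      rw [ih.1.natDegree_pow, ih.2, pow_succ, mul_comm]
    have h0 : 0 < d ^ (j + 1) := by positivity
    have h2 : (C (X : ℂ[X]) : ℂ[X][X]).degree < (Q d j ^ d).degree := by
      refine lt_of_le_of_lt degree_C_le ?_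
      rw [← natDegree_pos_iff_degree_pos, h1]
      exact h0
    refine ⟨(ih.1.pow d).add_of_left h2, ?_⟩
    have h3 := natDegree_add_eq_left_of_degree_lt h2
    rw [← h1]
    exact h3

/-- the polynomial of the fixed points -/
def Ph (d m : ℕ) : ℂ[X][X] := Q d m - X

/-- the polynomial of the multiplier -/
def La (d m : ℕ) (l : ℂ) : ℂ[X][X] := derivative (Q d m) - C (C l)

lemma Ph_monic {d m : ℕ} (hd : 2 ≤ d) (hm : 1 ≤ m) : (Ph d m).Monic ∧ (Ph d m).natDegree = d ^ m := by
  have h := Q_monic hd m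
  have h1 : 1 < d ^ m := Nat.one_lt_pow (by omega) (by omega)
  have h2 : (X : ℂ[X][X]).degree < (Q d m).degree := by
    rw [degree_X, degree_eq_natDegree h.1.ne_zero, h.2]
    exact_mod_cast h1
  refine ⟨h.1.sub_of_left h2, ?_⟩
  rw [← h.2]
  exact natDegree_sub_eq_left_of_natDegree_lt (by rw [natDegree_X, h.2]; exact h1)

lemma Ph_eval (d m : ℕ) (c z : ℂ) :
    eval z ((Ph d m).map (evalRingHom c)) = G d m c z - z := by
  unfold Ph G
  rw [Polynomial.map_sub, eval_sub, Q_eval, map_X, eval_X]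

lemma La_eval (d m : ℕ) (c z l : ℂ) :
    eval z ((La d m l).map (evalRingHom c)) = mu d m c z - l := by
  unfold La mu G
  have h : (fc d c)^[m] = fun z => eval z ((Q d m).map (evalRingHom c)) := by
    funext z
    exact (Q_eval d m c z).symm
  rw [h, Polynomial.deriv, Polynomial.map_sub, eval_sub, derivative_map, map_C, eval_C]
  simp

/-- the resultant -/
def Re (d m : ℕ) (l : ℂ) : ℂ[X] := resultant (Ph d m) (La d m l) (d ^ m) (La d m l).natDegree

lemma Re_eval {d m : ℕ} (hd : 2 ≤ d) (hm : 1 ≤ m) (l c : ℂ) :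
    eval c (Re d m l) = 0 ↔ ∃ z, G d m c z = z ∧ mu d m c z = l := by
  have h := Ph_monic hd hm
  have hmon : ((Ph d m).map (evalRingHom c)).Monic := h.1.map _
  have hdeg : ((Ph d m).map (evalRingHom c)).natDegree = d ^ m := by
    rw [h.1.natDegree_map, h.2]
  have e1 : eval c (Re d m l) = resultant ((Ph d m).map (evalRingHom c))
      ((La d m l).map (evalRingHom c)) (d ^ m) (La d m l).natDegree := by
    rw [resultant_map_map]
    rfl
  have e2 := resultant_eq_prod_eval ((Ph d m).map (evalRingHom c))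
      ((La d m l).map (evalRingHom c)) (La d m l).natDegree natDegree_map_le
      (IsAlgClosed.splits _)
  rw [hdeg, hmon.leadingCoeff, one_pow, one_mul] at e2
  rw [e1, e2, Multiset.prod_eq_zero_iff, Multiset.mem_map]
  constructor
  · rintro ⟨z, hz, hz'⟩
    rw [mem_roots hmon.ne_zero, IsRoot.def, Ph_eval] at hz
    rw [La_eval] at hz'
    exact ⟨z, sub_eq_zero.1 hz, sub_eq_zero.1 hz'⟩
  · rintro ⟨z, hz, hz'⟩
    refine ⟨z, ?_, ?_⟩
    · rw [mem_roots hmon.ne_zero, IsRoot.def, Ph_eval, hz, sub_self]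
    · rw [La_eval, hz', sub_self]

theorem t_FIN (h : S_REPEL) : S_FIN := by
  intro d m hd hm l hl
  have hne : Re d m l ≠ 0 := by
    intro h0
    have h1 : eval 6 (Re d m l) = 0 := by rw [h0, eval_zero]
    obtain ⟨z, hz, hz'⟩ := (Re_eval hd hm l 6).1 h1
    have h2 := h d m hd hm 6 z (by norm_num) hz
    rw [hz'] at h2
    exact absurd hl (not_le.2 h2)
  refine ((Re d m l).roots.toFinset.finite_toSet).subset ?_
  intro c hc
  have h1 := (Re_eval hd hm l c).2 hc
  rw [Finset.mem_coe, Multiset.mem_toFinset, mem_roots hne]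
  exact h1

end

end Pool.Agent.Y510.PC
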