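import Pool.Agent.Y811.PC.Stm

set_option autoImplicit false

/-! The curve parametrised by a root of `1 - Lq`. -/

namespace Pool.Agent.Y510.PC

open Complex Metric Set Filter Topology Pool.Agent.H712R2 Pool.Agent.Y811.PC

/-- a continuous function with values in a finite set near a point is constant near the point -/
lemma ev_const {F : ℂ → ℂ} {l : ℂ} {S : Set ℂ} (hS : S.Finite) (hF : Tendsto F (𝓝 0) (𝓝 l))
    (h : ∀ᶠ t in 𝓝 (0 : ℂ), F t ∈ S) : ∀ᶠ t in 𝓝 (0 : ℂ), F t = l := by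
  have h1 : (S \ {l})ᶜ ∈ 𝓝 l :=
    (hS.subset sdiff_subset).isClosed.isOpen_compl.mem_nhds (by simp)
  filter_upwards [h, hF h1] with t ht ht'
  by_contra hne
  exact ht' ⟨ht, hne⟩

theorem t_SEC (h1 : S_FIN) (h2 : S_REP) (hA : S_ANA) : S_SEC := by
  rintro d m q c₀ z₀ hP ⟨δ, cc, aa, hδ, hcc, haa, hc0, ha0, hfix, hne⟩
  have hball : ball (0 : ℂ) δ ∈ 𝓝 (0 : ℂ) := ball_mem_nhds 0 hδ
  have hccA : AnalyticAt ℂ cc 0 := hcc.analyticAt hball
  have haaA : AnalyticAt ℂ aa 0 := haa.analyticAt hball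
  have hmu : AnalyticAt ℂ (fun t => mu d m (cc t) (aa t)) 0 :=
    AnalyticAt.comp₂ (h := fun p : ℂ × ℂ => mu d m p.1 p.2) (hA d m (cc 0) (aa 0)).2 hccA haaA
  have hmq : mu d m (cc 0) (aa 0) ^ q = 1 := by rw [hc0, ha0]; exact hP.mul.pow_eq_one
  have hq : q ≠ 0 := by have := hP.hq; omega
  have hh : AnalyticAt ℂ (fun t => 1 - Lq d m q (cc t) (aa t)) 0 := by
    unfold Lq
    refine analyticAt_const.sub (AnalyticAt.inv (hmu.pow q) ?_)
    rw [hmq]
    exact one_ne_zero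
  have hh0 : (fun t => 1 - Lq d m q (cc t) (aa t)) 0 = 0 := by
    simp only [Lq, hmq, inv_one, sub_self]
  have hnz : ¬ ∀ᶠ t in 𝓝 (0 : ℂ), (fun t => 1 - Lq d m q (cc t) (aa t)) t = 0 := by
    intro hev
    have e1 : ∀ᶠ t in 𝓝 (0 : ℂ), mu d m (cc t) (aa t) ∈ {z : ℂ | z ^ q = 1} := by
      filter_upwards [hev] with t ht
      have h3 : (mu d m (cc t) (aa t) ^ q)⁻¹ = 1 := (sub_eq_zero.1 ht).symm
      exact inv_eq_one.1 h3
    have hfin : {z : ℂ | z ^ q = 1}.Finite := by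
      refine ((Polynomial.nthRoots q (1 : ℂ)).toFinset.finite_toSet).subset ?_
      intro z hz
      rw [Finset.mem_coe, Multiset.mem_toFinset, Polynomial.mem_nthRoots (by omega)]
      exact hz
    have e2 := ev_const hfin hmu.continuousAt e1
    have hn : ‖mu d m (cc 0) (aa 0)‖ ≤ 1 := by
      have := norm_pow (mu d m (cc 0) (aa 0)) q
      rw [hmq, norm_one] at this
      exact (pow_le_one_iff_of_nonneg (norm_nonneg _) hq).1 this.symm.le
    have hS := h1 d m hP.hd hP.hm (mu d m (cc 0) (aa 0)) hn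
    have e3 : ∀ᶠ t in 𝓝 (0 : ℂ), cc t ∈ {c : ℂ | ∃ z, G d m c z = z ∧
        mu d m c z = mu d m (cc 0) (aa 0)} := by
      filter_upwards [e2, hball] with t ht ht'
      exact ⟨aa t, hfix t ht', ht⟩
    have e4 := ev_const hS hccA.continuousAt e3
    have e5 : ∀ᶠ t in 𝓝[≠] (0 : ℂ), False := by
      have e6 : ∀ᶠ t in 𝓝[≠] (0 : ℂ), cc t = cc 0 := e4.filter_mono nhdsWithin_le_nhds
      have e7 : ∀ᶠ t in 𝓝[≠] (0 : ℂ), t ∈ ball (0 : ℂ) δ :=
        (eventually_of_mem hball fun t ht => ht : ∀ᶠ t in 𝓝 (0 : ℂ), t ∈ ball (0 : ℂ) δ).filter_mono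
          nhdsWithin_le_nhds
      filter_upwards [e6, e7, self_mem_nhdsWithin] with t ht ht' ht''
      exact hne t ht' ht'' (ht.trans hc0)
    exact e5.exists.elim fun _ h => h
  obtain ⟨e, δ', t, he, hδ', ht, ht0, hτ⟩ := h2 _ hh hh0 hnz δ hδ
  have hmaps : MapsTo t (ball 0 δ') (ball 0 δ) := fun τ hτ' => (hτ τ hτ').1
  refine ⟨e, δ', fun τ => cc (t τ), fun τ => aa (t τ), he, hδ', hcc.comp ht hmaps,
    haa.comp ht hmaps, by simp only [ht0, hc0], by simp only [ht0, ha0], ?_⟩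
  intro τ hτ'
  exact ⟨hfix _ (hτ τ hτ').1, (hτ τ hτ').2⟩

end Pool.Agent.Y510.PC
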